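import Pool.Agent.U20.CA.Fin3

/-!
Not every surjective cellular automaton is a finite composition of left-closing and right-closing
cellular automata, over any finite alphabet with at least two letters.

The automaton applies a rule of radius one to the code words of three letters `0, 1, 2`. It is
pre-injective, hence surjective. Five two-periodic sequences of letters have the image `1 1 1 ...`;
if the automaton were a composition of one-sided closing ones, some factor would be the first to
identify two of them, and then these two would have equally many continuations (to the right or to
the left) over every homoclinic image; explicit images show that the numbers differ for every pair.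
-/

namespace Pool.Agent.Results.MP_2e1455_lc.SurjectiveOutside

open Pool.Agent.H624CA

/-- Over every finite alphabet `S` with at least two letters there is a surjective cellular
automaton `f` that lies in no level `L^cl_k` or `R^cl_k` of the closing hierarchy; in other words
`f` is not the composition of any finite list of cellular automata each of which is left-closing or
right-closing. -/
theorem result (S : Type) [Finite S] [Nontrivial S] :
    ∃ f : (ℤ → S) → (ℤ → S), IsCA f ∧ Function.Surjective f ∧
      (∀ k : ℕ, f ∉ Lev S k true ∧ f ∉ Lev S k false) ∧
      ∀ L : List ((ℤ → S) → (ℤ → S)), (∀ g ∈ L, IsCA g ∧ (LeftClosing g ∨ RightClosing g)) →
        L.foldr (fun g h => g ∘ h) id ≠ f :=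
  Pool.Agent.U20.CA.main S

end Pool.Agent.Results.MP_2e1455_lc.SurjectiveOutside
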